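import Mathlib

/-!
# Square classes of integers and symmetric differences of sets of primes
-/

set_option autoImplicit false

open Finset

namespace Pool.Agent.R426.QB

/-! ## Square classes -/

theorem sqf_unique_nat {D D' k k' : ℕ} (hD : Squarefree D) (hD' : Squarefree D') (hk : k ≠ 0)
    (hk' : k' ≠ 0) (h : D * k ^ 2 = D' * k' ^ 2) : D = D' := by
  refine Nat.eq_of_factorization_eq hD.ne_zero hD'.ne_zero fun p => ?_
  have h1 : (D * k ^ 2).factorization p = (D' * k' ^ 2).factorization p := by rw [h]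
  rw [Nat.factorization_mul hD.ne_zero (pow_ne_zero 2 hk),
    Nat.factorization_mul hD'.ne_zero (pow_ne_zero 2 hk'), Finsupp.add_apply, Finsupp.add_apply,
    Nat.factorization_pow, Nat.factorization_pow, Finsupp.smul_apply, Finsupp.smul_apply,
    smul_eq_mul, smul_eq_mul] at h1
  have h2 := hD.natFactorization_le_one p
  have h3 := hD'.natFactorization_le_one p
  omega

theorem isSquare_of_mul {x y z : ℤ} (hy : y ≠ 0) (h : x * y ^ 2 = z ^ 2) : IsSquare x := by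
  have h1 : y ^ 2 ∣ z ^ 2 := ⟨x, by rw [← h]; ring⟩
  obtain ⟨w, rfl⟩ := (Int.pow_dvd_pow_iff (by norm_num)).1 h1
  refine ⟨w, ?_⟩
  have h2 : y ^ 2 ≠ 0 := pow_ne_zero 2 hy
  apply mul_right_cancel₀ h2
  rw [h]
  ring

/-- `z` is `D` or `-7 D` up to squares -/
def Cz (z : ℤ) (D : ℕ) : Prop := ∃ k : ℤ, k ≠ 0 ∧ (z = D * k ^ 2 ∨ z = -7 * D * k ^ 2)

theorem Cz.unique {z : ℤ} {D D' : ℕ} (hD : Squarefree D) (hD' : Squarefree D') (h : Cz z D)
    (h' : Cz z D') : D = D' := by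
  obtain ⟨k, hk, he⟩ := h
  obtain ⟨k', hk', he'⟩ := h'
  have hDp : 0 < (D : ℤ) := by exact_mod_cast Nat.pos_of_ne_zero hD.ne_zero
  have hDp' : 0 < (D' : ℤ) := by exact_mod_cast Nat.pos_of_ne_zero hD'.ne_zero
  have hk2 : 0 < k ^ 2 := by positivity
  have hk2' : 0 < k' ^ 2 := by positivity
  have h1 := mul_pos hDp hk2
  have h2 := mul_pos hDp' hk2'
  have key : (D : ℤ) * k ^ 2 = D' * k' ^ 2 := by
    rcases he with he | he <;> rcases he' with he' | he'
    · rw [← he, ← he']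
    · exfalso
      nlinarith
    · exfalso
      nlinarith
    · nlinarith
  have h3 : D * k.natAbs ^ 2 = D' * k'.natAbs ^ 2 := by
    have h4 : ((D * k.natAbs ^ 2 : ℕ) : ℤ) = ((D' * k'.natAbs ^ 2 : ℕ) : ℤ) := by
      push_cast
      rw [sq_abs, sq_abs]
      exact key
    exact_mod_cast h4
  exact sqf_unique_nat hD hD' (Int.natAbs_ne_zero.2 hk) (Int.natAbs_ne_zero.2 hk') h3

theorem Cz.ne {z : ℤ} {D : ℕ} (hD : D ≠ 0) (h : Cz z D) : z ≠ 0 := by
  have hD' : (D : ℤ) ≠ 0 := by exact_mod_cast hD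
  obtain ⟨k, hk, rfl | rfl⟩ := h
  · exact mul_ne_zero hD' (pow_ne_zero 2 hk)
  · exact mul_ne_zero (mul_ne_zero (by norm_num) hD') (pow_ne_zero 2 hk)

/-! ## Symmetric differences -/

theorem prod_symmDiff {α : Type} [DecidableEq α] (g : α → ℤ) (S T : Finset α) :
    (∏ p ∈ S, g p) * ∏ p ∈ T, g p = (∏ p ∈ symmDiff S T, g p) * (∏ p ∈ S ∩ T, g p) ^ 2 := by
  have h1 : symmDiff S T = (S \ T) ∪ (T \ S) := rfl
  have hd : Disjoint (S \ T) (T \ S) := by
    rw [Finset.disjoint_left]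
    intro a ha hb
    exact (Finset.mem_sdiff.1 hb).2 (Finset.mem_sdiff.1 ha).1
  rw [h1, Finset.prod_union hd, ← Finset.prod_inter_mul_prod_sdiff S T,
    ← Finset.prod_inter_mul_prod_sdiff T S, Finset.inter_comm T S]
  ring

theorem prod_symmDiff_nat (S T : Finset ℕ) :
    (∏ p ∈ S, p) * ∏ p ∈ T, p = (∏ p ∈ symmDiff S T, p) * (∏ p ∈ S ∩ T, p) ^ 2 := by
  have h := prod_symmDiff (fun p : ℕ => (p : ℤ)) S T
  apply Nat.cast_injective (R := ℤ)
  rw [Nat.cast_mul, Nat.cast_mul, Nat.cast_pow, Nat.cast_prod, Nat.cast_prod, Nat.cast_prod,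
    Nat.cast_prod]
  exact h

/-- the product of two classes -/
theorem Cz.mul {y z : ℤ} {S T : Finset ℕ} (hST : ∀ p ∈ S ∩ T, p ≠ 0) (h : Cz y (∏ p ∈ S, p))
    (h' : Cz z (∏ p ∈ T, p)) : Cz (y * z) (∏ p ∈ symmDiff S T, p) := by
  have h0 : ((∏ p ∈ S ∩ T, p : ℕ) : ℤ) ≠ 0 := by
    rw [Nat.cast_ne_zero]
    exact Finset.prod_ne_zero_iff.2 hST
  have h2 : ((∏ p ∈ S, p : ℕ) : ℤ) * ((∏ p ∈ T, p : ℕ) : ℤ) =
      ((∏ p ∈ symmDiff S T, p : ℕ) : ℤ) * ((∏ p ∈ S ∩ T, p : ℕ) : ℤ) ^ 2 := by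
    exact_mod_cast prod_symmDiff_nat S T
  obtain ⟨k, hk, he⟩ := h
  obtain ⟨k', hk', he'⟩ := h'
  rcases he with he | he <;> rcases he' with he' | he' <;> rw [he, he']
  · refine ⟨((∏ p ∈ S ∩ T, p : ℕ) : ℤ) * k * k', mul_ne_zero (mul_ne_zero h0 hk) hk', Or.inl ?_⟩
    linear_combination (k ^ 2 * k' ^ 2) * h2
  · refine ⟨((∏ p ∈ S ∩ T, p : ℕ) : ℤ) * k * k', mul_ne_zero (mul_ne_zero h0 hk) hk', Or.inr ?_⟩
    linear_combination (-7 * k ^ 2 * k' ^ 2) * h2
  · refine ⟨((∏ p ∈ S ∩ T, p : ℕ) : ℤ) * k * k', mul_ne_zero (mul_ne_zero h0 hk) hk', Or.inr ?_⟩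
    linear_combination (-7 * k ^ 2 * k' ^ 2) * h2
  · refine ⟨7 * (((∏ p ∈ S ∩ T, p : ℕ) : ℤ) * k * k'), mul_ne_zero (by norm_num)
      (mul_ne_zero (mul_ne_zero h0 hk) hk'), Or.inl ?_⟩
    linear_combination (49 * k ^ 2 * k' ^ 2) * h2

/-! ## Families with one number more -/

/-- the subsets of the indices with one index more -/
theorem prod_snoc_iff {n : ℕ} (d : Fin n → ℤ) (D : ℤ) (P : ℤ → Prop) :
    (∀ T : Finset (Fin (n + 1)), P (∏ i ∈ T, (Fin.snoc d D : Fin (n + 1) → ℤ) i)) ↔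
      (∀ T : Finset (Fin n), P (∏ i ∈ T, d i)) ∧ ∀ T : Finset (Fin n), P (D * ∏ i ∈ T, d i) := by
  classical
  have hinj : Function.Injective (Fin.castSucc : Fin n → Fin (n + 1)) := Fin.castSucc_injective n
  have h0 : ∀ T : Finset (Fin n), ∏ i ∈ T.image Fin.castSucc,
      (Fin.snoc d D : Fin (n + 1) → ℤ) i = ∏ i ∈ T, d i := by
    intro T
    rw [Finset.prod_image fun a _ b _ h => hinj h]
    exact Finset.prod_congr rfl fun i _ => Fin.snoc_castSucc _ _ _
  have hl : ∀ T : Finset (Fin n), Fin.last n ∉ T.image Fin.castSucc := by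
    intro T h
    obtain ⟨i, -, hi⟩ := Finset.mem_image.1 h
    exact (Fin.castSucc_lt_last i).ne hi
  have h1 : ∀ T : Finset (Fin n), ∏ i ∈ insert (Fin.last n) (T.image Fin.castSucc),
      (Fin.snoc d D : Fin (n + 1) → ℤ) i = D * ∏ i ∈ T, d i := by
    intro T
    rw [Finset.prod_insert (hl T), h0]
    congr 1
    exact Fin.snoc_last _ _
  constructor
  · intro h
    exact ⟨fun T => by rw [← h0]; exact h _, fun T => by rw [← h1]; exact h _⟩
  · rintro ⟨h2, h3⟩ T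
    set T' : Finset (Fin n) := univ.filter fun i => i.castSucc ∈ T with hT'
    have e : T.erase (Fin.last n) = T'.image Fin.castSucc := by
      ext i
      rw [Finset.mem_erase, Finset.mem_image]
      constructor
      · rintro ⟨g1, g2⟩
        obtain ⟨j, rfl⟩ := Fin.exists_castSucc_eq.2 g1
        exact ⟨j, Finset.mem_filter.2 ⟨Finset.mem_univ _, g2⟩, rfl⟩
      · rintro ⟨j, hj, rfl⟩
        exact ⟨(Fin.castSucc_lt_last j).ne, (Finset.mem_filter.1 hj).2⟩
    by_cases hlT : Fin.last n ∈ T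
    · rw [← Finset.insert_erase hlT, e, h1]
      exact h3 T'
    · rw [← Finset.erase_eq_of_notMem hlT, e, h0]
      exact h2 T'

/-- a property of the products over the nonempty sets -/
theorem prod_snoc_ne {n : ℕ} {d : Fin n → ℤ} {D : ℤ} {P : ℤ → Prop}
    (hd : ∀ T : Finset (Fin n), T.Nonempty → P (∏ i ∈ T, d i))
    (h : ∀ T : Finset (Fin n), P (D * ∏ i ∈ T, d i)) :
    ∀ T : Finset (Fin (n + 1)), T.Nonempty → P (∏ i ∈ T, (Fin.snoc d D : Fin (n + 1) → ℤ) i) := by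
  classical
  intro T hT
  have hinj : Function.Injective (Fin.castSucc : Fin n → Fin (n + 1)) := Fin.castSucc_injective n
  set T' : Finset (Fin n) := univ.filter fun i => i.castSucc ∈ T with hT'
  have e : T.erase (Fin.last n) = T'.image Fin.castSucc := by
    ext i
    rw [Finset.mem_erase, Finset.mem_image]
    constructor
    · rintro ⟨g1, g2⟩
      obtain ⟨j, rfl⟩ := Fin.exists_castSucc_eq.2 g1
      exact ⟨j, Finset.mem_filter.2 ⟨Finset.mem_univ _, g2⟩, rfl⟩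
    · rintro ⟨j, hj, rfl⟩
      exact ⟨(Fin.castSucc_lt_last j).ne, (Finset.mem_filter.1 hj).2⟩
  have h0 : ∏ i ∈ T'.image Fin.castSucc, (Fin.snoc d D : Fin (n + 1) → ℤ) i = ∏ i ∈ T', d i := by
    rw [Finset.prod_image fun a _ b _ h => hinj h]
    exact Finset.prod_congr rfl fun i _ => Fin.snoc_castSucc _ _ _
  by_cases hlT : Fin.last n ∈ T
  · rw [← Finset.mul_prod_erase T _ hlT, e, h0]
    have e2 : (Fin.snoc d D : Fin (n + 1) → ℤ) (Fin.last n) = D := Fin.snoc_last _ _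
    rw [e2]
    exact h T'
  · rw [← Finset.erase_eq_of_notMem hlT, e, h0]
    refine hd T' ?_
    obtain ⟨i, hi⟩ := hT
    have hne : i ≠ Fin.last n := fun h => hlT (h ▸ hi)
    obtain ⟨j, rfl⟩ := Fin.exists_castSucc_eq.2 hne
    exact ⟨j, Finset.mem_filter.2 ⟨Finset.mem_univ _, hi⟩⟩

/-- a finite set of exceptions does not change the proportion -/
theorem tendsto_exc (A B C : ℕ → Prop) [DecidablePred A] [DecidablePred B] [DecidablePred C]
    (E : Finset ℕ) {c : ℝ} (hinf : {D : ℕ | 1 ≤ D ∧ A D}.Infinite)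
    (_hBA : ∀ D, B D → A D) (hCB : ∀ D, C D → B D) (hE : ∀ D, B D → D ∉ E → C D)
    (h : Filter.Tendsto (fun X : ℕ => (((Icc 1 X).filter B).card : ℝ) /
      (((Icc 1 X).filter A).card : ℝ)) Filter.atTop (nhds c)) :
    Filter.Tendsto (fun X : ℕ => (((Icc 1 X).filter C).card : ℝ) /
      (((Icc 1 X).filter A).card : ℝ)) Filter.atTop (nhds c) := by
  have hA : Filter.Tendsto (fun X : ℕ => (((Icc 1 X).filter A).card : ℝ)) Filter.atTop
      Filter.atTop := by
    refine tendsto_natCast_atTop_atTop.comp ?_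
    refine Filter.tendsto_atTop_atTop.2 fun b => ?_
    obtain ⟨s, hs, hsc⟩ := hinf.exists_subset_card_eq b
    refine ⟨s.sup id, fun X hX => ?_⟩
    rw [← hsc]
    refine Finset.card_le_card fun D hD => ?_
    have h1 := hs hD
    exact Finset.mem_filter.2 ⟨Finset.mem_Icc.2 ⟨h1.1, (Finset.le_sup (f := id) hD).trans hX⟩, h1.2⟩
  have h2 : Filter.Tendsto (fun X : ℕ => (E.card : ℝ) / (((Icc 1 X).filter A).card : ℝ))
      Filter.atTop (nhds 0) := hA.const_div_atTop _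
  refine tendsto_of_tendsto_of_tendsto_of_le_of_le
    (by simpa using h.sub h2) h (fun X => ?_) (fun X => ?_)
  · have h3 : ((Icc 1 X).filter B).card ≤ ((Icc 1 X).filter C).card + E.card := by
      refine (Finset.card_le_card (t := (Icc 1 X).filter C ∪ E) fun D hD => ?_).trans
        (Finset.card_union_le _ _)
      rw [Finset.mem_union, Finset.mem_filter]
      obtain ⟨g1, g2⟩ := Finset.mem_filter.1 hD
      by_cases hDE : D ∈ E
      · exact Or.inr hDE
      · exact Or.inl ⟨g1, hE D g2 hDE⟩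
    have h4 : (((Icc 1 X).filter B).card : ℝ) ≤ ((Icc 1 X).filter C).card + E.card := by
      exact_mod_cast h3
    show _ / _ - _ / _ ≤ _ / _
    rw [← sub_div]
    apply div_le_div_of_nonneg_right _ (Nat.cast_nonneg _)
    linarith
  · show _ / _ ≤ _ / _
    apply div_le_div_of_nonneg_right _ (Nat.cast_nonneg _)
    refine Nat.cast_le.2 (Finset.card_le_card fun D hD => ?_)
    obtain ⟨g1, g2⟩ := Finset.mem_filter.1 hD
    exact Finset.mem_filter.2 ⟨g1, hCB D g2⟩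

end Pool.Agent.R426.QB
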