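import Pool.Agent.R426.QB.Zb
import Pool.Agent.R426.QB.Sq

/-!
# Order and rank zero over multiquadratic fields, real or containing `√-7`
-/

set_option autoImplicit false

open NumberField IsDedekindDomain

namespace Pool.Agent.R426.QB

open Pool.Agent.Y698 Pool.Agent.Y698.SG
open Pool.Agent.Y687.MQ (ZB ZB_scale mq_zero)
open Pool.Agent.Y19.QT (Indep EK IsLFunK)

theorem Cz.neg7 {z : ℤ} {D : ℕ} (h : Cz z D) : Cz (-7 * z) D := by
  obtain ⟨k, hk, rfl | rfl⟩ := h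
  · exact ⟨k, hk, Or.inr (by ring)⟩
  · exact ⟨7 * k, mul_ne_zero (by norm_num) hk, Or.inl (by ring)⟩

/-- order and rank zero up to squares and to the factor `-7` -/
theorem zb_of_cz {Q P : Finset ℕ} (hQ : ∀ q ∈ Q, Inq q) (hP : ∀ p ∈ P, Spl p)
    (hdet : (mat Q P).det ≠ 0) {z : ℤ} (hz : Cz z (∏ q ∈ Q ∪ P, q)) :
    ZB (-35 * z ^ 2) (-98 * z ^ 3) := by
  have hab : 4 * (-35 : ℤ) ^ 3 + 27 * (-98) ^ 2 ≠ 0 := by norm_num
  have h0 : (∏ q ∈ Q ∪ P, q) ≠ 0 := by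
    refine Finset.prod_ne_zero_iff.2 fun q hq => ?_
    rcases Finset.mem_union.1 hq with h | h
    · exact (hQ q h).1.ne_zero
    · exact (hP q h).1.ne_zero
  have h0' : ((∏ q ∈ Q ∪ P, q : ℕ) : ℤ) ≠ 0 := by exact_mod_cast h0
  obtain ⟨k, hk, rfl | rfl⟩ := hz
  · exact ZB_scale hab h0' hk (zb hQ hP hdet (Or.inl rfl))
  · exact ZB_scale hab (mul_ne_zero (by norm_num) h0') hk (zb hQ hP hdet (Or.inr rfl))

/-- `z` is good up to squares and to the factor `-7` -/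
def GZ (z : ℤ) : Prop := ∃ Q P : Finset ℕ, (∀ q ∈ Q, Inq q) ∧ (∀ p ∈ P, Spl p) ∧
  (mat Q P).det ≠ 0 ∧ Cz z (∏ q ∈ Q ∪ P, q)

theorem GZ.zb {z : ℤ} (h : GZ z) : ZB (-35 * z ^ 2) (-98 * z ^ 3) := by
  obtain ⟨Q, P, hQ, hP, hd, hz⟩ := h
  exact zb_of_cz hQ hP hd hz

theorem GZ.neg7 {z : ℤ} (h : GZ z) : GZ (-7 * z) := by
  obtain ⟨Q, P, hQ, hP, hd, hz⟩ := h
  exact ⟨Q, P, hQ, hP, hd, hz.neg7⟩

theorem GZ.ne {z : ℤ} (h : GZ z) : z ≠ 0 := by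
  obtain ⟨Q, P, hQ, hP, hd, hz⟩ := h
  refine hz.ne (Finset.prod_ne_zero_iff.2 fun q hq => ?_)
  rcases Finset.mem_union.1 hq with h | h
  · exact (hQ q h).1.ne_zero
  · exact (hP q h).1.ne_zero

/-- the real case and the other fields without `√-7` -/
theorem mq_one {n : ℕ} {d : Fin n → ℤ} {M : ℤ} (hd : Indep d) (h : ∀ T : Finset (Fin n),
    GZ (M * ∏ i ∈ T, d i)) (K : Type) [Field K] [NumberField K] (x : Fin n → K)
    (hx : ∀ i, x i ^ 2 = (d i : K)) (hK : IntermediateField.adjoin ℚ (Set.range x) = ⊤) :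
    (∃ F : ℂ → ℂ, IsLFunK K (-35 * M ^ 2) (-98 * M ^ 3) (∏ i, d i) F ∧ F 1 ≠ 0) ∧
      Finite (EK K (-35 * M ^ 2) (-98 * M ^ 3)) := by
  have hM : M ≠ 0 := by
    have := (h ∅).ne
    rwa [Finset.prod_empty, mul_one] at this
  refine mq_zero hd ?_ (fun T => ?_) K x hx hK
  · have e : 4 * (-35 * M ^ 2) ^ 3 + 27 * (-98 * M ^ 3) ^ 2 = 87808 * M ^ 6 := by ring
    rw [e]
    exact mul_ne_zero (by norm_num) (pow_ne_zero _ hM)
  · have h1 := (h T).zb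
    have e1 : -35 * (M * ∏ i ∈ T, d i) ^ 2 = -35 * M ^ 2 * (∏ i ∈ T, d i) ^ 2 := by ring
    have e2 : -98 * (M * ∏ i ∈ T, d i) ^ 3 = -98 * M ^ 3 * (∏ i ∈ T, d i) ^ 3 := by ring
    rwa [e1, e2] at h1

/-- with `√-7` -/
theorem mq_seven {n : ℕ} {d : Fin n → ℤ} {M : ℤ}
    (hd : ∀ T : Finset (Fin n), T.Nonempty →
      ¬ IsSquare (∏ i ∈ T, d i) ∧ ¬ IsSquare (-7 * ∏ i ∈ T, d i))
    (h : ∀ T : Finset (Fin n), GZ (M * ∏ i ∈ T, d i)) :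
    Indep (Fin.snoc d (-7) : Fin (n + 1) → ℤ) ∧ ∀ T : Finset (Fin (n + 1)),
      GZ (M * ∏ i ∈ T, (Fin.snoc d (-7) : Fin (n + 1) → ℤ) i) := by
  constructor
  · refine prod_snoc_ne (P := fun z => ¬ IsSquare z) (fun T hT => (hd T hT).1) fun T => ?_
    rcases T.eq_empty_or_nonempty with rfl | hT
    · rintro ⟨w, hw⟩
      rw [Finset.prod_empty] at hw
      nlinarith [mul_self_nonneg w]
    · exact (hd T hT).2
  · rw [prod_snoc_iff d (-7) (fun z => GZ (M * z))]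
    refine ⟨h, fun T => ?_⟩
    have h1 := (h T).neg7
    have e : -7 * (M * ∏ i ∈ T, d i) = M * (-7 * ∏ i ∈ T, d i) := by ring
    rwa [e] at h1

theorem isLFunK_unique {K : Type} [Field K] {a b D : ℤ} {F G : ℂ → ℂ} (hF : IsLFunK K a b D F)
    (hG : IsLFunK K a b D G) : F = G := by
  have hF' : AnalyticOnNhd ℂ F Set.univ := fun z _ => hF.1.analyticAt z
  have hG' : AnalyticOnNhd ℂ G Set.univ := fun z _ => hG.1.analyticAt z
  refine hF'.eq_of_eventuallyEq hG' (z₀ := 2) ?_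
  have hmem : {s : ℂ | (3 : ℝ) / 2 < s.re} ∈ nhds (2 : ℂ) :=
    (isOpen_lt continuous_const Complex.continuous_re).mem_nhds (by
      show (3 : ℝ) / 2 < (2 : ℂ).re
      norm_num)
  filter_upwards [hmem] with s hs
  exact (hF.2 s hs).unique (hG.2 s hs)

/-- the places of bad reduction -/
theorem bad_iff (K : Type) [Field K] [NumberField K] (M m e : ℤ) (he : e = 1 ∨ e = -7)
    (v : HeightOneSpectrum (𝓞 K)) : (((14 * M * m : ℤ) : 𝓞 K) ∈ v.asIdeal ↔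
      ((2 * (4 * (-35 * M ^ 2) ^ 3 + 27 * (-98 * M ^ 3) ^ 2) * (m * e) : ℤ) : 𝓞 K) ∈ v.asIdeal) := by
  have := v.isPrime
  constructor
  · intro h1
    have e1 : ((2 * (4 * (-35 * M ^ 2) ^ 3 + 27 * (-98 * M ^ 3) ^ 2) * (m * e) : ℤ) : 𝓞 K) =
        ((2 ^ 8 * 7 ^ 2 * M ^ 5 * e : ℤ) : 𝓞 K) * ((14 * M * m : ℤ) : 𝓞 K) := by
      rw [← Int.cast_mul]
      congr 1
      ring
    rw [e1]
    exact Ideal.mul_mem_left _ _ h1
  · intro h1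
    refine Ideal.IsPrime.mem_of_pow_mem this 9 ?_
    rcases he with rfl | rfl
    · have e1 : ((14 * M * m : ℤ) : 𝓞 K) ^ 9 = ((7 ^ 6 * M ^ 3 * m ^ 8 : ℤ) : 𝓞 K) *
          ((2 * (4 * (-35 * M ^ 2) ^ 3 + 27 * (-98 * M ^ 3) ^ 2) * (m * 1) : ℤ) : 𝓞 K) := by
        rw [← Int.cast_mul, ← Int.cast_pow]
        congr 1
        ring
      rw [e1]
      exact Ideal.mul_mem_left _ _ h1
    · have e1 : ((14 * M * m : ℤ) : 𝓞 K) ^ 9 = ((-7 ^ 5 * M ^ 3 * m ^ 8 : ℤ) : 𝓞 K) *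
          ((2 * (4 * (-35 * M ^ 2) ^ 3 + 27 * (-98 * M ^ 3) ^ 2) * (m * -7) : ℤ) : 𝓞 K) := by
        rw [← Int.cast_mul, ← Int.cast_pow]
        congr 1
        ring
      rw [e1]
      exact Ideal.mul_mem_left _ _ h1

end Pool.Agent.R426.QB
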