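import Pool.Agent.R426.QB.Sq
import Pool.Agent.R428.Q0.Dens
import Pool.Agent.R428.Q0.Cls
import Pool.Agent.Y687.JQ.Stm

/-!
# The class of the discriminants, and the proportions over the fields
-/

set_option autoImplicit false

open scoped Classical

open Finset

namespace Pool.Agent.R426.QB

open Pool.Agent.Y698 Pool.Agent.Y698.SG
open Pool.Agent.Y703.CQ (Cl In Ok Gd Sp)
open Pool.Agent.Y687.JQ (GdJ OkW S_JDEN)

/-- the primes of the class -/
def Pc (p : ℕ) : Prop := p.Prime ∧ ((p % 8 = 1 ∧ (p % 7 = 1 ∨ p % 7 = 2 ∨ p % 7 = 4)) ∨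
  (p % 8 = 5 ∧ (p % 7 = 3 ∨ p % 7 = 5 ∨ p % 7 = 6)))

/-- the class -/
def Ac (D : ℕ) : Prop := Squarefree D ∧ ∀ p ∈ D.primeFactors, Pc p

/-- the class with `D ≡ 1 mod 8` -/
def Ac8 (D : ℕ) : Prop := Ac D ∧ D % 8 = 1

theorem Pc.or8 {p : ℕ} (h : Pc p) : p % 8 = 1 ∨ p % 8 = 5 := h.2.imp And.left And.left

theorem Pc.spl {p : ℕ} (h : Pc p) (h8 : p % 8 = 1) : Spl p := by
  refine ⟨h.1, by omega, (Pool.Agent.R428.Q0.sq7_iff h.1 (by omega)).2 ?_⟩
  rcases h.2 with h1 | h1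
  · exact h1.2
  · omega

theorem Pc.inq {p : ℕ} (h : Pc p) (h8 : p % 8 ≠ 1) : Inq p := by
  have h5 : p % 8 = 5 := h.or8.resolve_left h8
  refine ⟨h.1, by omega, fun hs => ?_⟩
  have h2 := (Pool.Agent.R428.Q0.sq7_iff h.1 (by omega)).1 hs
  rcases h.2 with h1 | h1
  · exact h8 h1.1
  · omega

theorem sqf_prod {S : Finset ℕ} (hS : ∀ p ∈ S, p.Prime) : Squarefree (∏ p ∈ S, p) := by
  refine Finset.squarefree_prod_of_pairwise_isCoprime (fun p hp q hq hpq => ?_)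
    fun p hp => (hS p hp).squarefree
  show IsRelPrime p q
  rw [← Nat.coprime_iff_isRelPrime]
  exact (Nat.coprime_primes (hS p hp) (hS q hq)).mpr hpq

theorem ac_prod {S : Finset ℕ} (hS : ∀ p ∈ S, Pc p) : Ac (∏ p ∈ S, p) :=
  ⟨sqf_prod fun p hp => (hS p hp).1, by
    rw [Nat.primeFactors_prod fun p hp => (hS p hp).1]
    exact hS⟩

theorem Ac.prod {D : ℕ} (h : Ac D) : ∏ p ∈ D.primeFactors, p = D :=
  Nat.prod_primeFactors_of_squarefree h.1

/-- the class with `D ≡ 1 mod 8`, in the terms of the project CQ -/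
theorem ac8_iff (D : ℕ) : Ac8 D ↔ Squarefree D ∧ Cl {5} {0} D.primeFactors := by
  constructor
  · rintro ⟨⟨h1, h3⟩, h2⟩
    have h8 : ∀ p ∈ D.primeFactors, p % 8 = 1 ∨ p % 8 = 5 := fun p hp => (h3 p hp).or8
    refine ⟨h1, fun p hp => ?_, ?_, ?_⟩
    · rcases (h3 p hp).2 with h4 | h4
      · exact Or.inl ⟨(h3 p hp).1, h4⟩
      · exact Or.inr ⟨(h3 p hp).1, by omega, Finset.mem_singleton.2 h4.1, h4.2⟩
    · rw [← Pool.Agent.R428.Q0.prod_mod_eight h8, Nat.prod_primeFactors_of_squarefree h1]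
      exact h2
    · have h5 : (D.primeFactors.filter fun p => p % 8 = 3) = ∅ := by
        rw [Finset.filter_eq_empty_iff]
        intro p hp
        rcases h8 p hp with h | h <;> omega
      rw [h5]
      simp
  · rintro ⟨h1, h2, h3, -⟩
    have h4 : ∀ p ∈ D.primeFactors, Pc p := by
      intro p hp
      rcases h2 p hp with h | h
      · exact ⟨h.1, Or.inl h.2⟩
      · exact ⟨h.1, Or.inr ⟨Finset.mem_singleton.1 h.2.2.1, h.2.2.2⟩⟩
    refine ⟨⟨h1, h4⟩, ?_⟩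
    have h5 := (Pool.Agent.R428.Q0.prod_mod_eight fun p hp => (h4 p hp).or8).2 h3
    rwa [Nat.prod_primeFactors_of_squarefree h1] at h5

/-- the good numbers of the class -/
def Gc (D : ℕ) : Prop := Ac D ∧ Gd n4 D.primeFactors

/-- `z` is up to squares and to the factor `-7` in the class -/
def AcS (z : ℤ) : Prop := ∃ D : ℕ, Ac D ∧ Cz z D

/-- `M` is good over the field -/
def GO {n : ℕ} (d : Fin n → ℤ) (M : ℤ) : Prop := ∀ T : Finset (Fin n), ∃ D : ℕ, Gc D ∧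
  Cz (M * ∏ i ∈ T, d i) D

/-- no square and no square times `-7` -/
def Nsq (z : ℤ) : Prop := ¬ IsSquare z ∧ ¬ IsSquare (-7 * z)

/-- the square classes -/
theorem exists_U {n : ℕ} {d : Fin n → ℤ} (hd : ∀ T : Finset (Fin n), T.Nonempty → Nsq (∏ i ∈ T, d i))
    (ha : ∀ i, AcS (d i)) {N : ℤ} (hN : AcS N) :
    ∃ U : Finset (Fin n) → Finset ℕ, Function.Injective U ∧ ∀ T, (∀ p ∈ U T, Pc p) ∧
      Cz (N * ∏ i ∈ T, d i) (∏ p ∈ U T, p) := by
  have h1 : ∀ T : Finset (Fin n), ∃ S : Finset ℕ, (∀ p ∈ S, Pc p) ∧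
      Cz (N * ∏ i ∈ T, d i) (∏ p ∈ S, p) := by
    intro T
    induction T using Finset.induction_on with
    | empty =>
      obtain ⟨D, hD, hz⟩ := hN
      refine ⟨D.primeFactors, hD.2, ?_⟩
      rwa [Finset.prod_empty, mul_one, hD.prod]
    | insert a T haT ih =>
      obtain ⟨S, hS, hz⟩ := ih
      obtain ⟨D, hD, hzD⟩ := ha a
      refine ⟨symmDiff D.primeFactors S, fun p hp => ?_, ?_⟩
      · rcases Finset.mem_symmDiff.1 hp with h | h
        · exact hD.2 p h.1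
        · exact hS p h.1
      · have h2 : N * ∏ i ∈ insert a T, d i = d a * (N * ∏ i ∈ T, d i) := by
          rw [Finset.prod_insert haT]
          ring
        rw [h2]
        rw [← hD.prod] at hzD
        exact Cz.mul (fun p hp => (hS p (Finset.mem_inter.1 hp).2).1.ne_zero) hzD hz
  choose U hU using h1
  refine ⟨U, fun T T' hTT => ?_, hU⟩
  by_contra hne
  obtain ⟨hS, hz⟩ := hU T
  obtain ⟨hS', hz'⟩ := hU T'
  rw [← hTT] at hz' hS'
  have hne' : (symmDiff T T').Nonempty := by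
    rw [Finset.nonempty_iff_ne_empty]
    intro h
    exact hne (symmDiff_eq_bot.1 h)
  have hD0 : (∏ p ∈ U T, p) ≠ 0 := (sqf_prod fun p hp => (hS p hp).1).ne_zero
  have hD0' : ((∏ p ∈ U T, p : ℕ) : ℤ) ≠ 0 := by exact_mod_cast hD0
  have hz0 := hz.ne hD0
  have hz0' := hz'.ne hD0
  have hi0 : (∏ i ∈ T ∩ T', d i) ≠ 0 := by
    have h2 : (∏ i ∈ T, d i) ≠ 0 := right_ne_zero_of_mul hz0
    rw [Finset.prod_ne_zero_iff] at h2 ⊢
    exact fun i hi => h2 i (Finset.mem_inter.1 hi).1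
  have hN0 : N ≠ 0 := left_ne_zero_of_mul hz0
  have hprod := prod_symmDiff d T T'
  obtain ⟨h3, h4⟩ := hd _ hne'
  obtain ⟨k, hk, he⟩ := hz
  obtain ⟨k', hk', he'⟩ := hz'
  set x := ∏ i ∈ symmDiff T T', d i with hx
  set y := ∏ i ∈ T ∩ T', d i with hy
  have e1 : (N * ∏ i ∈ T, d i) * (N * ∏ i ∈ T', d i) = x * (N * y) ^ 2 := by
    linear_combination N ^ 2 * hprod
  rcases he with he | he <;> rcases he' with he' | he' <;> rw [he, he'] at e1
  · exact h3 (isSquare_of_mul (y := N * y) (z := ((∏ p ∈ U T, p : ℕ) : ℤ) * k * k')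
      (mul_ne_zero hN0 hi0) (by rw [← e1]; ring))
  · exact h4 (isSquare_of_mul (y := N * y) (z := 7 * (((∏ p ∈ U T, p : ℕ) : ℤ) * k * k'))
      (mul_ne_zero hN0 hi0) (by linear_combination (7 : ℤ) * e1))
  · exact h4 (isSquare_of_mul (y := N * y) (z := 7 * (((∏ p ∈ U T, p : ℕ) : ℤ) * k * k'))
      (mul_ne_zero hN0 hi0) (by linear_combination (7 : ℤ) * e1))
  · exact h3 (isSquare_of_mul (y := N * y) (z := 7 * (((∏ p ∈ U T, p : ℕ) : ℤ) * k * k'))
      (mul_ne_zero hN0 hi0) (by rw [← e1]; ring))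

/-- in terms of the sets -/
theorem GO_iff {n : ℕ} {d : Fin n → ℤ} {N : ℤ} {U : Finset (Fin n) → Finset ℕ}
    (hU : ∀ T, (∀ p ∈ U T, Pc p) ∧ Cz (N * ∏ i ∈ T, d i) (∏ p ∈ U T, p)) {D : ℕ} (hD : Ac D) :
    GO d (N * D) ↔ GdJ n4 (univ.image U) D.primeFactors := by
  have h1 : ∀ T : Finset (Fin n), Cz (N * D * ∏ i ∈ T, d i) (∏ p ∈ symmDiff D.primeFactors (U T), p) := by
    intro T
    have h2 : Cz (D : ℤ) (∏ p ∈ D.primeFactors, p) := by
      rw [hD.prod]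
      exact ⟨1, one_ne_zero, Or.inl (by ring)⟩
    have h3 := Cz.mul (fun p hp => ((hU T).1 p (Finset.mem_inter.1 hp).2).1.ne_zero) h2 (hU T).2
    have e : N * D * ∏ i ∈ T, d i = (D : ℤ) * (N * ∏ i ∈ T, d i) := by ring
    rwa [e]
  have h2 : ∀ T : Finset (Fin n), ∀ p ∈ symmDiff D.primeFactors (U T), Pc p := by
    intro T p hp
    rcases Finset.mem_symmDiff.1 hp with h | h
    · exact hD.2 p h.1
    · exact (hU T).1 p h.1
  have h3 : ∀ T : Finset (Fin n), (∃ D' : ℕ, Gc D' ∧ Cz (N * D * ∏ i ∈ T, d i) D') ↔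
      Gd n4 (symmDiff D.primeFactors (U T)) := by
    intro T
    have h4 := ac_prod (h2 T)
    have h5 : (∏ p ∈ symmDiff D.primeFactors (U T), p).primeFactors =
        symmDiff D.primeFactors (U T) := Nat.primeFactors_prod fun p hp => (h2 T p hp).1
    constructor
    · rintro ⟨D', hD', hz⟩
      have h6 := hz.unique hD'.1.1 h4.1 (h1 T)
      have h7 := hD'.2
      rwa [h6, h5] at h7
    · intro h
      exact ⟨_, ⟨h4, by rwa [h5]⟩, h1 T⟩
  unfold GO GdJ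
  simp only [h3, Finset.mem_image, Finset.mem_univ, true_and]
  constructor
  · rintro h V ⟨T, rfl⟩
    exact h T
  · exact fun h T => h _ ⟨T, rfl⟩

/-- **the proportion over a field** -/
theorem prop_field (hJ : S_JDEN) {n : ℕ} {d : Fin n → ℤ}
    (hd : ∀ T : Finset (Fin n), T.Nonempty → Nsq (∏ i ∈ T, d i)) (ha : ∀ i, AcS (d i))
    {N : ℤ} (hN : AcS N) :
    Filter.Tendsto (fun X : ℕ =>
      (((Icc 1 X).filter fun D : ℕ => Ac8 D ∧ GO d (N * D)).card : ℝ) /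
      (((Icc 1 X).filter fun D : ℕ => Ac8 D).card : ℝ))
      Filter.atTop (nhds (Pool.Agent.Y703.CQ.c2 ^ 2 ^ n)) := by
  obtain ⟨U, hinj, hU⟩ := exists_U hd ha hN
  have hcard : (univ.image U).card = 2 ^ n := by
    rw [Finset.card_image_of_injective _ hinj, Finset.card_univ, Fintype.card_finset,
      Fintype.card_fin]
  have hW : OkW ((univ.image U).biUnion id) (univ.image U) := by
    refine ⟨fun u hu => ?_, fun V hV => Finset.subset_biUnion_of_mem id hV⟩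
    obtain ⟨V, hV, huV⟩ := Finset.mem_biUnion.1 hu
    obtain ⟨T, -, rfl⟩ := Finset.mem_image.1 hV
    have h1 := (hU T).1 u huV
    refine ⟨h1.1, ?_, ?_⟩
    · rintro rfl
      have := h1.or8
      omega
    · rintro rfl
      have := h1.or8
      omega
  have h := hJ {5} {0} n4 _ _ Pool.Agent.R428.Q0.ok5 hW
  rw [hcard] at h
  refine h.congr fun X => ?_
  have e1 : ((Icc 1 X).filter fun D : ℕ => Ac8 D ∧ GO d (N * D)) =
      (Icc 1 X).filter fun D => Squarefree D ∧ Cl {5} {0} D.primeFactors ∧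
        GdJ n4 (univ.image U) D.primeFactors := by
    refine Finset.filter_congr fun D hD => ?_
    rw [← and_assoc, ← ac8_iff]
    refine and_congr_right fun hA => ?_
    rw [GO_iff hU hA.1]
  have e2 : ((Icc 1 X).filter fun D : ℕ => Ac8 D) =
      (Icc 1 X).filter fun D => Squarefree D ∧ Cl {5} {0} D.primeFactors :=
    Finset.filter_congr fun D _ => ac8_iff D
  rw [e1, e2]

/-- the class is infinite -/
theorem ac8_infinite : {D : ℕ | 1 ≤ D ∧ Ac8 D}.Infinite := by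
  have h1 : IsUnit ((1 : ℕ) : ZMod 56) := (ZMod.isUnit_iff_coprime 1 56).2 (by norm_num)
  have hinf := Nat.infinite_setOfPred_prime_and_eq_mod h1
  refine hinf.mono ?_
  rintro q ⟨hq, hqa⟩
  have h56 : q % 56 = 1 % 56 := (ZMod.natCast_eq_natCast_iff' _ _ _).1 hqa
  refine ⟨hq.one_lt.le, ⟨hq.squarefree, ?_⟩, by omega⟩
  rw [hq.primeFactors]
  intro p hp
  rw [Finset.mem_singleton.1 hp]
  exact ⟨hq, Or.inl ⟨by omega, by omega⟩⟩

theorem GO_snoc {n : ℕ} (d : Fin n → ℤ) (M D : ℤ) :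
    GO (Fin.snoc d D : Fin (n + 1) → ℤ) M ↔ (GO d M ∧ GO d (M * D)) := by
  unfold GO
  rw [prod_snoc_iff d D (fun z => ∃ D' : ℕ, Gc D' ∧ Cz (M * z) D')]
  simp only [mul_assoc]

theorem GO.acS {n : ℕ} {d : Fin n → ℤ} {M : ℤ} (h : GO d M) : AcS M := by
  obtain ⟨D, hD, hz⟩ := h ∅
  rw [Finset.prod_empty, mul_one] at hz
  exact ⟨D, hD.1, hz⟩

theorem int_of_rat {x y z : ℤ} {D : ℕ} (hD : Squarefree D) (hy : y ≠ 0) (hx : x ≠ 0)
    (h : x * y ^ 2 = D * z ^ 2) : ∃ k : ℤ, k ≠ 0 ∧ x = D * k ^ 2 := by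
  have hD0 : (D : ℤ) ≠ 0 := by exact_mod_cast hD.ne_zero
  have hz : z ≠ 0 := by
    rintro rfl
    apply mul_ne_zero hx (pow_ne_zero 2 hy)
    rw [h]
    ring
  -- `D x` is a square
  have h1 : IsSquare ((D : ℤ) * x) := isSquare_of_mul (y := y) (z := D * z) hy (by
    linear_combination (D : ℤ) * h)
  obtain ⟨w, hw⟩ := h1
  have h2 : (D : ℤ) ∣ w ^ 2 := ⟨x, by rw [pow_two, ← hw]⟩
  have h3 : (D : ℤ) ∣ w := by
    have h4 : D ∣ w.natAbs ^ 2 := by
      rw [← Int.natAbs_pow]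
      exact Int.natCast_dvd.1 h2
    exact Int.natCast_dvd.2 ((hD.dvd_pow_iff_dvd
      two_ne_zero).1 h4)
  obtain ⟨k, rfl⟩ := h3
  refine ⟨k, ?_, ?_⟩
  · rintro rfl
    rw [mul_zero, mul_zero] at hw
    exact mul_ne_zero hD0 hx hw
  · apply mul_left_cancel₀ hD0
    rw [hw]
    ring

/-- the numbers of a good pair are in the class up to squares -/
theorem GO.acS_d {n : ℕ} {d : Fin n → ℤ} {M : ℤ} (h : GO d M) : ∀ i, AcS (d i) := by
  intro i
  obtain ⟨D, hD, hz⟩ := h ∅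
  obtain ⟨D', hD', hz'⟩ := h {i}
  rw [Finset.prod_empty, mul_one] at hz
  rw [Finset.prod_singleton] at hz'
  have hM0 := hz.ne hD.1.1.ne_zero
  have hd0 : d i ≠ 0 := right_ne_zero_of_mul (hz'.ne hD'.1.1.ne_zero)
  rw [← hD.1.prod] at hz
  rw [← hD'.1.prod] at hz'
  have h1 := Cz.mul (fun p hp => (hD.1.2 p (Finset.mem_inter.1 hp).1).1.ne_zero) hz hz'
  set S := symmDiff D.primeFactors D'.primeFactors with hS
  have hSP : ∀ p ∈ S, Pc p := by
    intro p hp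
    rcases Finset.mem_symmDiff.1 hp with h | h
    · exact hD.1.2 p h.1
    · exact hD'.1.2 p h.1
  have hsq := sqf_prod fun p hp => (hSP p hp).1
  refine ⟨∏ p ∈ S, p, ac_prod hSP, ?_⟩
  obtain ⟨k, hk, he | he⟩ := h1
  · obtain ⟨l, hl, hl'⟩ := int_of_rat hsq hM0 hd0 (x := d i) (y := M) (z := k) (by
      linear_combination he)
    exact ⟨l, hl, Or.inl hl'⟩
  · -- `-7 d i` is `D` up to squares
    obtain ⟨l, hl, hl'⟩ := int_of_rat hsq hM0 (mul_ne_zero (by norm_num) hd0) (x := -7 * d i)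
      (y := M) (z := 7 * k) (by linear_combination (-7 : ℤ) * he)
    -- `7 ∣ l`
    have h7 : ¬ (7 : ℤ) ∣ ((∏ p ∈ S, p : ℕ) : ℤ) := by
      intro h7
      have h8 : 7 ∣ ∏ p ∈ S, p := by exact_mod_cast h7
      obtain ⟨p, hp, hd⟩ := (Prime.dvd_finsetProd_iff (by norm_num : Nat.Prime 7).prime _).1 h8
      have h9 := (Nat.prime_dvd_prime_iff_eq (by norm_num) (hSP p hp).1).1 hd
      have := (hSP p hp).or8
      omega
    have hp7 : Prime (7 : ℤ) := by norm_num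
    have h10 : (7 : ℤ) ∣ l := by
      have h11 : (7 : ℤ) ∣ ((∏ p ∈ S, p : ℕ) : ℤ) * l ^ 2 := ⟨-d i, by rw [← hl']; ring⟩
      rcases hp7.dvd_or_dvd h11 with h12 | h12
      · exact absurd h12 h7
      · exact hp7.dvd_of_dvd_pow h12
    obtain ⟨m, rfl⟩ := h10
    refine ⟨m, by rintro rfl; exact hl (mul_zero _), Or.inr ?_⟩
    have h13 : (-7 : ℤ) ≠ 0 := by norm_num
    apply mul_left_cancel₀ h13
    rw [hl']
    ring

/-- **the proportion of the quadratic extensions of a good field** -/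
theorem prop_ext (hJ : S_JDEN) {n : ℕ} {d : Fin n → ℤ}
    (hd : ∀ T : Finset (Fin n), T.Nonempty → Nsq (∏ i ∈ T, d i)) {M : ℤ} (hM : GO d M) :
    Filter.Tendsto (fun X : ℕ =>
      (((Icc 1 X).filter fun D : ℕ => Ac8 D ∧
        ((∀ T : Finset (Fin (n + 1)), T.Nonempty →
          Nsq (∏ i ∈ T, (Fin.snoc d (D : ℤ) : Fin (n + 1) → ℤ) i)) ∧
          GO (Fin.snoc d (D : ℤ) : Fin (n + 1) → ℤ) M)).card : ℝ) /
      (((Icc 1 X).filter fun D : ℕ => Ac8 D).card : ℝ))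
      Filter.atTop (nhds (Pool.Agent.Y703.CQ.c2 ^ 2 ^ n)) := by
  have ha := hM.acS_d
  obtain ⟨U, hinj, hU⟩ := exists_U hd ha (N := 1) ⟨1, ⟨squarefree_one, by simp⟩,
    1, one_ne_zero, Or.inl (by norm_num)⟩
  refine tendsto_exc (fun D : ℕ => Ac8 D) (fun D : ℕ => Ac8 D ∧ GO d (M * D))
    (fun D : ℕ => Ac8 D ∧ ((∀ T : Finset (Fin (n + 1)), T.Nonempty →
          Nsq (∏ i ∈ T, (Fin.snoc d (D : ℤ) : Fin (n + 1) → ℤ) i)) ∧
          GO (Fin.snoc d (D : ℤ) : Fin (n + 1) → ℤ) M))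
    (univ.image fun T => ∏ p ∈ U T, p) ac8_infinite
    (fun D h => h.1) (fun D h => ⟨h.1, ((GO_snoc d M _).1 h.2.2).2⟩) (fun D h hDE => ?_)
    (prop_field hJ hd ha hM.acS)
  refine ⟨h.1, prod_snoc_ne hd fun T => ?_, (GO_snoc d M _).2 ⟨hM, h.2⟩⟩
  -- the number is not a square
  have hD := h.1.1
  have key : ∀ e : ℤ, (e = 1 ∨ e = -7) → ¬ IsSquare (e * ((D : ℤ) * ∏ i ∈ T, d i)) := by
    rintro e he ⟨w, hw⟩
    obtain ⟨hT, hz⟩ := hU T
    rw [one_mul] at hz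
    have hz0 := hz.ne (sqf_prod fun p hp => (hT p hp).1).ne_zero
    have hD0 : (D : ℤ) ≠ 0 := by exact_mod_cast hD.1.ne_zero
    have he0 : e ≠ 0 := by rcases he with h | h <;> rw [h] <;> norm_num
    have hw0 : w ≠ 0 := by
      rintro rfl
      rw [mul_zero] at hw
      exact mul_ne_zero he0 (mul_ne_zero hD0 hz0) hw
    -- `∏ d i · D²` is `e D` up to squares
    have h1 : Cz ((∏ i ∈ T, d i) * (e * D) ^ 2) D := by
      rcases he with rfl | rfl
      · exact ⟨w, hw0, Or.inl (by linear_combination (D : ℤ) * hw)⟩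
      · exact ⟨w, hw0, Or.inr (by linear_combination (-7 * D : ℤ) * hw)⟩
    have h2 : Cz ((∏ i ∈ T, d i) * (e * D) ^ 2) (∏ p ∈ U T, p) := by
      obtain ⟨k, hk, h3 | h3⟩ := hz
      · exact ⟨k * (e * D), mul_ne_zero hk (mul_ne_zero he0 hD0), Or.inl (by rw [h3]; ring)⟩
      · exact ⟨k * (e * D), mul_ne_zero hk (mul_ne_zero he0 hD0), Or.inr (by rw [h3]; ring)⟩
    have h3 := h1.unique hD.1 (sqf_prod fun p hp => (hT p hp).1) h2
    exact hDE (Finset.mem_image.2 ⟨T, Finset.mem_univ _, h3.symm⟩)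
  constructor
  · have := key 1 (Or.inl rfl)
    rwa [one_mul] at this
  · exact key (-7) (Or.inr rfl)

end Pool.Agent.R426.QB
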