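import Pool.Agent.Y698.SG.Inp
import Pool.Agent.Y698.SG.Ty
import Pool.Agent.Y19.QT.Forms

/-!
# The L-functions over `ℚ` of the quadratic twists of `X_0(49)`, without the factors at the primes
# of bad reduction of the short equation
-/

set_option autoImplicit false
set_option linter.unusedSectionVars false

namespace Pool.Agent.R426.QB

open Pool.Agent.Y698 Pool.Agent.Y698.SG
open H667R3 Pool.Agent.W192.HK Pool.Agent.TH936.CM Pool.Agent.TH936.PU
open W165.CE (pw pw_eq pw_luc exists_roots')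
open Pool.Agent.Y19.QT (IsLFun)

/-- the trace of Frobenius of the short equation of the twist by `g = D` or `g = -7 D` -/
theorem trace_short {p : ℕ} (hp : p.Prime) (hp2 : p ≠ 2) (hp7 : p ≠ 7) {S : Finset ℕ}
    (hS : ∀ q ∈ S, Gp q) (hpS : p ∉ S) {g : ℤ}
    (hg : g = ((∏ q ∈ S, q : ℕ) : ℤ) ∨ g = -7 * ((∏ q ∈ S, q : ℕ) : ℤ)) :
    ((p : ℂ) - (Nat.card {q : ZMod p × ZMod p // q.2 ^ 2 = q.1 ^ 3 +
      ((-35 * g ^ 2 : ℤ) : ZMod p) * q.1 + ((-98 * g ^ 3 : ℤ) : ZMod p)} : ℂ)) =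
      (∏ q ∈ S, qch q p) * bc p := by
  classical
  have : Fact p.Prime := ⟨hp⟩
  have hm4 : (∏ q ∈ S, q) % 4 = 1 := by
    clear hpS hg
    induction S using Finset.induction_on with
    | empty => rfl
    | insert q S hq ih =>
      rw [Finset.prod_insert hq, Nat.mul_mod, ih fun p hp => hS p (Finset.mem_insert_of_mem hp),
        (hS q (Finset.mem_insert_self q S)).m4]
  obtain ⟨j, hj⟩ : ∃ j, ∏ q ∈ S, q = 1 + 4 * j := ⟨(∏ q ∈ S, q) / 4, by omega⟩
  have hF : ringChar (ZMod p) ≠ 2 := by rwa [ZMod.ringChar_zmod_n]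
  have h20 : (2 : ZMod p) ≠ 0 := by
    intro h0
    have h3 : ((2 : ℕ) : ZMod p) = 0 := by exact_mod_cast h0
    rw [ZMod.natCast_eq_zero_iff] at h3
    exact hp2 ((Nat.prime_dvd_prime_iff_eq hp Nat.prime_two).1 h3)
  have h70 : (7 : ZMod p) ≠ 0 := by
    intro h0
    have h3 : ((7 : ℕ) : ZMod p) = 0 := by exact_mod_cast h0
    rw [ZMod.natCast_eq_zero_iff] at h3
    exact hp7 ((Nat.prime_dvd_prime_iff_eq hp (by norm_num)).1 h3)
  have ht := Pool.Agent.Y698.SG.trace_tw (ZMod p) hp hp7 one_ne_zero (by rw [Nat.card_zmod, pow_one])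
    hS hpS hj
  rw [Nat.card_zmod, pow_one] at ht
  have hcast : ((j : ℕ) : ZMod p) = ((j : ℤ) : ZMod p) := (Int.cast_natCast j).symm
  rw [hcast, card_AP_EX (ZMod p) h20 (j : ℤ)] at ht
  have hpw : pw (bc p) (ec p) 1 = bc p := rfl
  rw [hpw] at ht
  have hD : ((∏ q ∈ S, q : ℕ) : ℤ) = 1 + 4 * (j : ℤ) := by rw [hj]; push_cast; ring
  rcases hg with rfl | rfl
  · rw [hD, ← ht]
    push_cast
    rfl
  · -- the twist by `-7`
    have hD0 : ((1 + 4 * (j : ℤ) : ℤ) : ZMod p) ≠ 0 := by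
      rw [← hD]
      intro h
      rw [Int.cast_natCast, ZMod.natCast_eq_zero_iff] at h
      exact Pool.Agent.Y698.SG.not_dvd_prod hS hp hpS h
    have h7D0 : ((-7 * (1 + 4 * (j : ℤ)) : ℤ) : ZMod p) ≠ 0 := by
      push_cast at hD0 ⊢
      exact mul_ne_zero (neg_ne_zero.2 h70) hD0
    have t1 := count_tw hF ((-35 : ℤ) : ZMod p) ((-98 : ℤ) : ZMod p) hD0
    have t2 := count_tw hF ((-35 : ℤ) : ZMod p) ((-98 : ℤ) : ZMod p) h7D0
    rw [ZMod.card] at t1 t2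
    have hb := bc_odd hp hp2 hp7
    have hAff : Nat.card (Aff (ZMod p)) = Nat.card {x : ZMod p × ZMod p //
        x.2 ^ 2 = x.1 ^ 3 + ((-35 : ℤ) : ZMod p) * x.1 + ((-98 : ℤ) : ZMod p)} := by
      unfold Aff
      push_cast
      rfl
    rw [hAff] at hb
    have e1 : Nat.card {x : ZMod p × ZMod p // x.2 ^ 2 = x.1 ^ 3 +
        ((-35 * (1 + 4 * (j : ℤ)) ^ 2 : ℤ) : ZMod p) * x.1 +
        ((-98 * (1 + 4 * (j : ℤ)) ^ 3 : ℤ) : ZMod p)} = Nat.card {x : ZMod p × ZMod p //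
        x.2 ^ 2 = x.1 ^ 3 + ((-35 : ℤ) : ZMod p) * ((1 + 4 * (j : ℤ) : ℤ) : ZMod p) ^ 2 * x.1 +
          ((-98 : ℤ) : ZMod p) * ((1 + 4 * (j : ℤ) : ℤ) : ZMod p) ^ 3} := by
      push_cast
      rfl
    have e2 : Nat.card {x : ZMod p × ZMod p // x.2 ^ 2 = x.1 ^ 3 +
        ((-35 * (-7 * (1 + 4 * (j : ℤ))) ^ 2 : ℤ) : ZMod p) * x.1 +
        ((-98 * (-7 * (1 + 4 * (j : ℤ))) ^ 3 : ℤ) : ZMod p)} = Nat.card {x : ZMod p × ZMod p //
        x.2 ^ 2 = x.1 ^ 3 + ((-35 : ℤ) : ZMod p) * ((-7 * (1 + 4 * (j : ℤ)) : ℤ) : ZMod p) ^ 2 * x.1 +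
          ((-98 : ℤ) : ZMod p) * ((-7 * (1 + 4 * (j : ℤ)) : ℤ) : ZMod p) ^ 3} := by
      push_cast
      rfl
    rw [hD, e2]
    rw [e1] at ht
    have hq : quadraticChar (ZMod p) ((-7 * (1 + 4 * (j : ℤ)) : ℤ) : ZMod p) =
        quadraticChar (ZMod p) (-7) * quadraticChar (ZMod p) ((1 + 4 * (j : ℤ) : ℤ) : ZMod p) := by
      rw [← map_mul]
      push_cast
      rfl
    rw [hq] at t2
    rw [← ht]
    have t3 : ((p : ℂ) - (Nat.card {x : ZMod p × ZMod p //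
        x.2 ^ 2 = x.1 ^ 3 + ((-35 : ℤ) : ZMod p) * ((-7 * (1 + 4 * (j : ℤ)) : ℤ) : ZMod p) ^ 2 * x.1 +
          ((-98 : ℤ) : ZMod p) * ((-7 * (1 + 4 * (j : ℤ)) : ℤ) : ZMod p) ^ 3} : ℂ)) =
        (((p : ℤ) - (Nat.card {x : ZMod p × ZMod p //
        x.2 ^ 2 = x.1 ^ 3 + ((-35 : ℤ) : ZMod p) * ((-7 * (1 + 4 * (j : ℤ)) : ℤ) : ZMod p) ^ 2 * x.1 +
          ((-98 : ℤ) : ZMod p) * ((-7 * (1 + 4 * (j : ℤ)) : ℤ) : ZMod p) ^ 3} : ℤ) : ℤ) : ℂ) := by
      push_cast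
      rfl
    rw [t3, t2]
    by_cases hsq : IsSquare (-7 : ZMod p)
    · have hq1 : quadraticChar (ZMod p) (-7) = 1 := by
        rw [quadraticChar_one_iff_isSquare (neg_ne_zero.2 h70)]
        exact hsq
      rw [hq1, one_mul, ← t1]
    · have hb0 := (bc_inert (irr_inert hp hsq) hp).1
      rw [hb0] at hb
      have hb1 : ((p : ℤ) - (Nat.card {x : ZMod p × ZMod p //
        x.2 ^ 2 = x.1 ^ 3 + ((-35 : ℤ) : ZMod p) * x.1 + ((-98 : ℤ) : ZMod p)} : ℤ)) = 0 := by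
        exact_mod_cast hb.symm
      rw [t1, hb1, mul_zero, mul_zero]

/-- the quadratic characters at a prime factor -/
lemma qprod_zero {S : Finset ℕ} {p : ℕ} (hp : p.Prime) (hpS : p ∈ S) : ∏ q ∈ S, qch q (p : ℕ) = 0 := by
  refine Finset.prod_eq_zero hpS ?_
  unfold qch
  have : NeZero p := ⟨hp.ne_zero⟩
  have h1 : jacobiSym ((p : ℕ) : ℤ) p = 0 := by
    rw [jacobiSym.eq_zero_iff_not_coprime]
    rw [Int.gcd_natCast_natCast, Nat.gcd_self]
    exact hp.one_lt.ne'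
  rw [h1, Int.cast_zero]

open Classical in
/-- the entire L-function of the short equation -/
theorem isLFun_of {S : Finset ℕ} (hS : ∀ q ∈ S, Gp q) {F : ℂ → ℂ} (hF : Differentiable ℂ F)
    (hE : ∀ z : ℂ, 3 / 2 < z.re → HasProd (fun p : Nat.Primes =>
      (1 - bc p * ((∏ q ∈ S, qch q (p : ℕ)) * ((p : ℕ) : ℂ) ^ (-z)) +
      ec p * ((∏ q ∈ S, qch q (p : ℕ)) * ((p : ℕ) : ℂ) ^ (-z)) ^ 2)⁻¹) (F z)) (hF1 : F 1 ≠ 0) {g : ℤ}
    (hg : g = ((∏ q ∈ S, q : ℕ) : ℤ) ∨ g = -7 * ((∏ q ∈ S, q : ℕ) : ℤ)) :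
    ∃ G : ℂ → ℂ, IsLFun (-35 * g ^ 2) (-98 * g ^ 3) G ∧ analyticOrderAt G 1 = 0 := by
  set c2 : ℂ := ∏ q ∈ S, qch q ((2 : ℕ) : ℤ) with hc2
  have hc2s : c2 = 1 ∨ c2 = -1 := by
    have h1 : c2 ^ 2 = 1 := by
      refine qprod_sq (fun q hq => (hS q hq).pr) fun q hq hd => ?_
      have h1 : q ∣ 2 := by exact_mod_cast hd
      have h2 := (Nat.prime_dvd_prime_iff_eq (hS q hq).pr Nat.prime_two).1 h1
      have := (hS q hq).m4
      omega
    exact sq_eq_one_iff.1 h1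
  have hc2s' : c2 ^ 2 = 1 := by
    rcases hc2s with h | h <;> rw [h] <;> norm_num
  set inn : ℂ → ℂ := fun s => 1 - c2 * (2 : ℂ) ^ (-s) + 2 * ((2 : ℂ) ^ (-s)) ^ 2 with hinn
  have hinn0 : ∀ s : ℂ, 3 / 2 < s.re → inn s ≠ 0 := by
    intro s hs h0
    have h1 : ‖(2 : ℂ) ^ (-s)‖ ≤ 3 / 8 := by
      have e : ((2 : ℝ) : ℂ) = 2 := by norm_num
      rw [← e, Complex.norm_cpow_eq_rpow_re_of_pos (by norm_num)]
      have h2 : (2 : ℝ) ^ (-s).re ≤ 2 ^ (-(3 / 2) : ℝ) := by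
        apply Real.rpow_le_rpow_of_exponent_le (by norm_num)
        rw [Complex.neg_re]
        linarith
      refine h2.trans ?_
      have h3 : ((2 : ℝ) ^ (-(3 / 2) : ℝ)) ^ 2 = 1 / 8 := by
        rw [← Real.rpow_natCast, ← Real.rpow_mul (by norm_num)]
        norm_num
      have h4 : (0 : ℝ) ≤ 2 ^ (-(3 / 2) : ℝ) := by positivity
      nlinarith
    have h2 : ‖c2‖ = 1 := by
      rcases hc2s with h | h <;> rw [h] <;> simp
    have h3 : (1 : ℂ) = c2 * (2 : ℂ) ^ (-s) - 2 * ((2 : ℂ) ^ (-s)) ^ 2 := by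
      rw [hinn] at h0
      simp only at h0
      linear_combination h0
    have h4 := congrArg norm h3
    rw [norm_one] at h4
    have h5 : ‖c2 * (2 : ℂ) ^ (-s) - 2 * ((2 : ℂ) ^ (-s)) ^ 2‖ ≤
        ‖(2 : ℂ) ^ (-s)‖ + 2 * ‖(2 : ℂ) ^ (-s)‖ ^ 2 := by
      refine (norm_sub_le _ _).trans ?_
      rw [norm_mul, norm_mul, h2, one_mul, norm_pow, Complex.norm_ofNat]
    have h6 := norm_nonneg ((2 : ℂ) ^ (-s))
    nlinarith
  have hinn1 : inn 1 ≠ 0 := by
    rw [hinn]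
    simp only
    rw [Complex.cpow_neg_one]
    rcases hc2s with h | h <;> rw [h] <;> norm_num
  have hdvd : ∀ p : ℕ, p.Prime → ((p : ℤ) ∣ 2 * (-4 * (-35 * g ^ 2) ^ 3 - 27 * (-98 * g ^ 3) ^ 2) ↔
      (p = 2 ∨ p = 7 ∨ p ∈ S)) := by
    intro p hp
    have hpp : Prime (p : ℤ) := Nat.prime_iff_prime_int.1 hp
    have e : 2 * (-4 * (-35 * g ^ 2) ^ 3 - 27 * (-98 * g ^ 3) ^ 2) = -(2 ^ 9 * 7 ^ 3 * g ^ 6) := by ring
    rw [e, dvd_neg]
    have hD : (p : ℤ) ∣ ((∏ q ∈ S, q : ℕ) : ℤ) ↔ p ∈ S := by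
      rw [Int.natCast_dvd_natCast]
      constructor
      · intro h
        by_contra h1
        exact Pool.Agent.Y698.SG.not_dvd_prod hS hp h1 h
      · exact fun h => Finset.dvd_prod_of_mem _ h
    have h2 : (p : ℤ) ∣ 2 ↔ p = 2 := by
      have : (p : ℤ) ∣ ((2 : ℕ) : ℤ) ↔ p = 2 := by
        rw [Int.natCast_dvd_natCast]
        exact Nat.prime_dvd_prime_iff_eq hp Nat.prime_two
      exact_mod_cast this
    have h7 : (p : ℤ) ∣ 7 ↔ p = 7 := by
      have : (p : ℤ) ∣ ((7 : ℕ) : ℤ) ↔ p = 7 := by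
        rw [Int.natCast_dvd_natCast]
        exact Nat.prime_dvd_prime_iff_eq hp (by norm_num)
      exact_mod_cast this
    have h7' : (p : ℤ) ∣ -7 ↔ p = 7 := by rw [dvd_neg, h7]
    rw [hpp.dvd_mul, hpp.dvd_mul, hpp.dvd_pow_iff_dvd (by norm_num), hpp.dvd_pow_iff_dvd (by norm_num),
      hpp.dvd_pow_iff_dvd (by norm_num), h2, h7]
    rcases hg with rfl | rfl
    · rw [hD]
      tauto
    · rw [hpp.dvd_mul, h7', hD]
      tauto
  refine ⟨fun s => F s * inn s, ⟨?_, fun s hs => ?_⟩, ?_⟩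
  · refine hF.mul ?_
    intro s
    rw [hinn]
    fun_prop (disch := norm_num)
  · have h1 := hE s hs
    have h2 := h1.mul (hasProd_ite_eq (⟨2, Nat.prime_two⟩ : Nat.Primes) (inn s))
    set t : ℕ → ℂ := fun p => if p.Prime ∧ ¬ ((p : ℤ) ∣ 2 * (-4 * (-35 * g ^ 2) ^ 3 - 27 * (-98 * g ^ 3) ^ 2))
      then (1 - ((p : ℂ) - (Nat.card {q : ZMod p × ZMod p // q.2 ^ 2 = q.1 ^ 3 +
        ((-35 * g ^ 2 : ℤ) : ZMod p) * q.1 + ((-98 * g ^ 3 : ℤ) : ZMod p)} : ℂ)) * (p : ℂ) ^ (-s) +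
        (p : ℂ) ^ (1 - 2 * s))⁻¹ else 1 with ht
    have h3 : HasProd (t ∘ ((↑) : {p : ℕ | p.Prime} → ℕ)) (F s * inn s) := by
      refine (congrArg (fun f => HasProd f (F s * inn s)) (funext fun p => ?_)).mp h2
      have hp : (p : ℕ).Prime := p.2
      have e0 : (t ∘ ((↑) : {p : ℕ | p.Prime} → ℕ)) p = t (p : ℕ) := rfl
      rw [e0, ht]
      simp only
      by_cases hp2 : (p : ℕ) = 2
      · have hp2' : p = ⟨2, Nat.prime_two⟩ := Subtype.ext hp2
        rw [if_pos hp2', if_neg (fun h => h.2 ((hdvd _ hp).2 (Or.inl hp2))), hp2, bc_two]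
        have e1 : ec 2 = 2 := by
          unfold ec
          rw [if_neg (by norm_num)]
          norm_num
        rw [e1]
        have e2 : (1 - 1 * ((∏ q ∈ S, qch q ((2 : ℕ) : ℤ)) * ((2 : ℕ) : ℂ) ^ (-s)) +
          2 * ((∏ q ∈ S, qch q ((2 : ℕ) : ℤ)) * ((2 : ℕ) : ℂ) ^ (-s)) ^ 2) = inn s := by
          rw [← hc2, hinn]
          simp only
          push_cast
          linear_combination 2 * ((2 : ℂ) ^ (-s)) ^ 2 * hc2s'
        rw [e2]
        exact inv_mul_cancel₀ (hinn0 s hs)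
      · have hp2' : p ≠ ⟨2, Nat.prime_two⟩ := fun h => hp2 (congrArg Subtype.val h)
        rw [if_neg hp2', mul_one]
        by_cases hp7 : (p : ℕ) = 7
        · rw [if_neg (fun h => h.2 ((hdvd _ hp).2 (Or.inr (Or.inl hp7)))), hp7]
          have hb7 : bc 7 = 0 := by
            have := bc_seven 0
            simpa using this
          have e1 : ec 7 = 0 := by
            unfold ec
            rw [if_pos rfl]
          rw [hb7, e1]
          simp
        · by_cases hpS : (p : ℕ) ∈ S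
          · rw [if_neg (fun h => h.2 ((hdvd _ hp).2 (Or.inr (Or.inr hpS)))), qprod_zero hp hpS]
            simp
          · rw [if_pos ⟨hp, fun h => by
              rcases (hdvd _ hp).1 h with h | h | h
              · exact hp2 h
              · exact hp7 h
              · exact hpS h⟩, trace_short hp hp2 hp7 hS hpS hg]
            have hsq : (∏ q ∈ S, qch q (p : ℕ)) ^ 2 = 1 := by
              refine qprod_sq (fun q hq => (hS q hq).pr) fun q hq hd => ?_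
              have h1 : q ∣ (p : ℕ) := by exact_mod_cast hd
              exact hpS (((Nat.prime_dvd_prime_iff_eq (hS q hq).pr hp).1 h1) ▸ hq)
            have hec : ec (p : ℕ) = ((p : ℕ) : ℂ) := by
              unfold ec
              rw [if_neg hp7]
            have hp0 : ((p : ℕ) : ℂ) ≠ 0 := by exact_mod_cast hp.ne_zero
            have hcp : ((p : ℕ) : ℂ) ^ (1 - 2 * s) = ((p : ℕ) : ℂ) * (((p : ℕ) : ℂ) ^ (-s)) ^ 2 := by
              rw [← Complex.cpow_nat_mul, Complex.cpow_sub _ _ hp0, Complex.cpow_one]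
              push_cast
              rw [show 2 * -s = -(2 * s) by ring, Complex.cpow_neg]
              rfl
            rw [hec, hcp]
            congr 1
            linear_combination ((p : ℕ) : ℂ) * (((p : ℕ) : ℂ) ^ (-s)) ^ 2 * hsq
    exact (hasProd_subtype_iff_of_mulSupport_subset (by
      intro n hn
      rw [Function.mem_mulSupport] at hn
      by_contra h4
      exact hn (if_neg fun h => h4 h.1))).1 h3
  · rw [AnalyticAt.analyticOrderAt_eq_zero]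
    · exact mul_ne_zero hF1 hinn1
    · refine (hF.mul ?_).analyticAt 1
      intro s
      rw [hinn]
      fun_prop (disch := norm_num)

end Pool.Agent.R426.QB
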