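import Pool.Agent.R426.QB.Lf
import Pool.Agent.R428.Q0.Fh
import Pool.Agent.R428.Q0.Conv
import Pool.Agent.Y687.MQ.Abs

/-!
# Order zero and rank zero over `ℚ` for the twists of `X_0(49)` by `D` and `-7 D`
-/

set_option autoImplicit false
set_option linter.unusedSectionVars false

namespace Pool.Agent.R426.QB

open Pool.Agent.Y698 Pool.Agent.Y698.SG
open Pool.Agent.Y687.MQ (ZB)
open Pool.Agent.TH841.NF.D (Sha)
open NumberField WithZero
open H667R3 Pool.Agent.W192.HK Pool.Agent.TH936.CM Pool.Agent.TH936.PU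

/-- the points over the field with `√-7` -/
theorem finite_F {F : Type} [Field F] [CharZero F] [NumberField F] [DecidableEq F] {a : F}
    {ha : a ^ 2 = a - 2} {V : Set (Valuation F ℤᵐ⁰)} {S : Finset ℕ}
    (hC : Pool.Agent.R428.Q0.C0 a ha V S) :
    {z : F × F | z.2 ^ 2 = z.1 ^ 3 + 21 * DD F S * z.1 ^ 2 + 112 * DD F S ^ 2 * z.1}.Finite := by
  classical
  have hfin := Pool.Agent.R428.Q0.pt_finiteD hC
  have hD0 : DD F S ≠ 0 := DD_ne fun q hq => (hC.inS q hq).1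
  obtain ⟨n1, n2, n3⟩ := roots_neD ha hD0
  have hm := eA_mul ha
  have hadd := eA_add ha
  set D := DD F S with hDd
  have hQ : ∀ z : {z : F × F | z.2 ^ 2 = z.1 ^ 3 + 21 * D * z.1 ^ 2 + 112 * D ^ 2 * z.1},
      (Pool.Agent.H437R2.Man.MW.crv (0 : F) (-(D * eA a)) (-(D * eB a))).toAffine.Nonsingular
        z.1.1 z.1.2 := by
    rintro ⟨⟨x, y⟩, h⟩
    apply Pool.Agent.H437R2.Man.MW.crv_nonsing n1 n2 n3
    have h' : y ^ 2 = x ^ 3 + 21 * D * x ^ 2 + 112 * D ^ 2 * x := h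
    simp only
    rw [h']
    linear_combination D * x ^ 2 * hadd - D ^ 2 * x * hm
  have hinj : Function.Injective (fun z : {z : F × F | z.2 ^ 2 = z.1 ^ 3 + 21 * D * z.1 ^ 2 +
      112 * D ^ 2 * z.1} => (WeierstrassCurve.Affine.Point.some _ _ (hQ z) :
        Pool.Agent.H437R2.Man.MW.Pt (0 : F) (-(D * eA a)) (-(D * eB a)))) := by
    rintro ⟨⟨x, y⟩, h⟩ ⟨⟨x', y'⟩, h'⟩ he
    simp only [WeierstrassCurve.Affine.Point.some.injEq] at he
    obtain ⟨e1, e2⟩ := he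
    subst e1
    subst e2
    rfl
  exact Set.finite_coe_iff.1 (Finite.of_injective _ hinj)

/-- the rational points of the short equation -/
theorem finite_short {Q P : Finset ℕ} (hQ : ∀ q ∈ Q, Inq q) (hP : ∀ p ∈ P, Spl p)
    (hdet : (mat Q P).det ≠ 0) {g : ℤ}
    (hg : g = ((∏ q ∈ Q ∪ P, q : ℕ) : ℤ) ∨ g = -7 * ((∏ q ∈ Q ∪ P, q : ℕ) : ℤ)) :
    {q : ℚ × ℚ | q.2 ^ 2 = q.1 ^ 3 + ((-35 * g ^ 2 : ℤ) : ℚ) * q.1 +
      ((-98 * g ^ 3 : ℤ) : ℚ)}.Finite := by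
  classical
  obtain ⟨F, _, _, _, a, ha, V, hC, -, -, -⟩ :=
    Pool.Agent.R428.Q0.exists_c0 ℚ (fun k => ⟨k, (Rat.cast_id k).symm⟩) hQ hP hdet
  have hfin := finite_F hC
  have hDF : DD F (Q ∪ P) = (((∏ q ∈ Q ∪ P, q : ℕ) : ℤ) : F) := by
    rw [DD_cast, Int.cast_natCast]
  set D : ℤ := ((∏ q ∈ Q ∪ P, q : ℕ) : ℤ) with hD
  rw [hDF] at hfin
  have hs2 : (2 * a - 1) ^ 2 = (-7 : F) := by linear_combination 4 * ha
  have hs0 : (2 * a - 1) ≠ 0 := by
    intro h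
    rw [h] at hs2
    norm_num at hs2
  rcases hg with rfl | rfl
  · set f : ℚ × ℚ → F × F := fun q => ((q.1 : F) - 7 * D, (q.2 : F)) with hf
    have hfi : Function.Injective f := by
      rintro ⟨x, y⟩ ⟨x', y'⟩ h
      rw [hf] at h
      simp only [Prod.mk.injEq] at h
      obtain ⟨h1, h2⟩ := h
      have h3 : (x : F) = x' := by linear_combination h1
      exact Prod.ext (by exact_mod_cast h3) (by exact_mod_cast h2)
    refine (hfin.preimage hfi.injOn).subset ?_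
    rintro ⟨x, y⟩ h
    have h' : y ^ 2 = x ^ 3 + ((-35 * D ^ 2 : ℤ) : ℚ) * x + ((-98 * D ^ 3 : ℤ) : ℚ) := h
    have h2 := congrArg (fun t : ℚ => (t : F)) h'
    beta_reduce at h2
    push_cast at h2
    show (y : F) ^ 2 = ((x : F) - 7 * D) ^ 3 + 21 * (D : F) * ((x : F) - 7 * D) ^ 2 +
      112 * (D : F) ^ 2 * ((x : F) - 7 * D)
    linear_combination h2
  · set f : ℚ × ℚ → F × F := fun q => ((q.1 : F) / (-7) - 7 * D, (q.2 : F) / (-7 * (2 * a - 1)))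
      with hf
    have h7 : (-7 : F) ≠ 0 := by norm_num
    have hfi : Function.Injective f := by
      rintro ⟨x, y⟩ ⟨x', y'⟩ h
      rw [hf] at h
      simp only [Prod.mk.injEq] at h
      obtain ⟨h1, h2⟩ := h
      have h3 : (x : F) = x' := by
        have h4 : (x : F) / (-7) = x' / (-7) := by linear_combination h1
        rwa [div_left_inj' h7] at h4
      rw [div_left_inj' (mul_ne_zero h7 hs0)] at h2
      exact Prod.ext (by exact_mod_cast h3) (by exact_mod_cast h2)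
    refine (hfin.preimage hfi.injOn).subset ?_
    rintro ⟨x, y⟩ h
    have h' : y ^ 2 = x ^ 3 + ((-35 * (-7 * D) ^ 2 : ℤ) : ℚ) * x + ((-98 * (-7 * D) ^ 3 : ℤ) : ℚ) := h
    have h2 := congrArg (fun t : ℚ => (t : F)) h'
    beta_reduce at h2
    push_cast at h2
    show ((y : F) / (-7 * (2 * a - 1))) ^ 2 = ((x : F) / (-7) - 7 * D) ^ 3 +
      21 * (D : F) * ((x : F) / (-7) - 7 * D) ^ 2 + 112 * (D : F) ^ 2 * ((x : F) / (-7) - 7 * D)
    have e1 : ((y : F) / (-7 * (2 * a - 1))) ^ 2 = (y : F) ^ 2 / (-343) := by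
      rw [div_pow, mul_pow, hs2]
      norm_num
    rw [e1]
    linear_combination (-1 / 343) * h2

/-- nonvanishing of the value -/
theorem val_ne {Q P : Finset ℕ} (hQ : ∀ q ∈ Q, Inq q) (hP : ∀ p ∈ P, Spl p)
    (hdet : (mat Q P).det ≠ 0) {g : ℤ}
    (hg : g = ((∏ q ∈ Q ∪ P, q : ℕ) : ℤ) ∨ g = -7 * ((∏ q ∈ Q ∪ P, q : ℕ) : ℤ)) :
    ∃ G : ℂ → ℂ, Pool.Agent.Y19.QT.IsLFun (-35 * g ^ 2) (-98 * g ^ 3) G ∧
      analyticOrderAt G 1 = 0 := by
  have hS : ∀ q ∈ Q ∪ P, Gp q := by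
    intro q hq
    rcases Finset.mem_union.1 hq with h | h
    · exact Gp.of_inq (hQ q h)
    · exact Gp.of_spl (hP q h)
  obtain ⟨F, g1, g2, g4⟩ := val_quad' inp hQ hP hdet
  refine isLFun_of hS g1 g2 ?_ hg
  obtain ⟨L, Ω, h⟩ := exists_LD
  have hirrA : Irreducible aR := irr_of_prime_norm (by
    rw [aR_nR]; norm_num)
  have hp : (sp aR).IsPrime := (maximal_sp hirrA).isPrime
  obtain ⟨B, hB⟩ := Pool.Agent.Y698.exists_vs (sp aR)
  have h1 := hB aR (Ideal.mem_span_singleton_self _)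
  rw [aR_coe] at h1
  have h2 := g4 _ B.valuation L Ω h h1
  intro h0
  rw [h0, map_zero, zero_div, map_zero, mul_zero] at h2
  exact pow_ne_zero _ ((Valuation.ne_zero_iff B.valuation).2 two_ne_zero) h2.symm

/-- order and rank zero -/
theorem zb {Q P : Finset ℕ} (hQ : ∀ q ∈ Q, Inq q) (hP : ∀ p ∈ P, Spl p)
    (hdet : (mat Q P).det ≠ 0) {g : ℤ}
    (hg : g = ((∏ q ∈ Q ∪ P, q : ℕ) : ℤ) ∨ g = -7 * ((∏ q ∈ Q ∪ P, q : ℕ) : ℤ)) :
    ZB (-35 * g ^ 2) (-98 * g ^ 3) :=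
  ⟨val_ne hQ hP hdet hg, finite_short hQ hP hdet hg⟩

end Pool.Agent.R426.QB
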